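import Mathlib

set_option autoImplicit false

namespace Pool.Agent.Results.MP_6d87e8_lc.DeletePoint

open Set

universe u

/-- A linear order `L` is strongly surjective if it maps monotonically onto each of its nonempty
suborders. -/
def StronglySurjective (L : Type u) [LinearOrder L] : Prop :=
  ∀ K : Set L, K.Nonempty → ∃ f : L → K, Monotone f ∧ Function.Surjective f

/-- a proper final segment of `(x, ∞)` maps onto `(x, ∞)` -/
def SS {L : Type u} [LinearOrder L] (x : L) : Prop :=
  ∃ (Q : Set L) (f : L → L), (∀ q ∈ Q, x < q) ∧ (∀ q ∈ Q, ∀ y, q ≤ y → y ∈ Q) ∧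
    (∃ y, x < y ∧ y ∉ Q) ∧ MonotoneOn f Q ∧ f '' Q = Ioi x

variable {L : Type u} [LinearOrder L]

lemma ss_of_cover {a b : L} (hab : a ⋖ b) (h : SS b) : SS a := by
  classical
  obtain ⟨Q, f, hQ, hup, ⟨y₀, hy₀, hy₀Q⟩, hf, him⟩ := h
  have hQy : ∀ q ∈ Q, y₀ < q := fun q hq => by
    by_contra hle
    exact hy₀Q (hup q hq y₀ (not_lt.1 hle))
  refine ⟨Ici y₀, fun y => if y ∈ Q then f y else b, ?_, ?_, ⟨b, hab.lt, ?_⟩, ?_, ?_⟩
  · intro q hq
    exact hab.lt.trans (hy₀.trans_le hq)
  · intro q hq y hy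
    exact le_trans (mem_Ici.1 hq) hy
  · simpa using hy₀
  · intro y hy y' hy' hle
    by_cases h1 : y ∈ Q
    · have h2 : y' ∈ Q := hup y h1 y' hle
      simp only [h1, h2, if_true]
      exact hf h1 h2 hle
    · by_cases h2 : y' ∈ Q
      · simp only [h1, h2, if_true, if_false]
        have : f y' ∈ Ioi b := by rw [← him]; exact ⟨y', h2, rfl⟩
        exact (mem_Ioi.1 this).le
      · simp only [h1, h2, if_false]
        exact le_rfl
  · ext w
    constructor
    · rintro ⟨y, _, rfl⟩
      by_cases h1 : y ∈ Q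
      · simp only [h1, if_true]
        have : f y ∈ Ioi b := by rw [← him]; exact ⟨y, h1, rfl⟩
        exact hab.lt.trans this
      · simp only [h1, if_false]
        exact hab.lt
    · intro hw
      rcases eq_or_ne w b with rfl | hne
      · exact ⟨y₀, self_mem_Ici, by simp [hy₀Q]⟩
      · have h1 : b < w := by
          rcases lt_or_gt_of_ne hne with h1 | h1
          · exact absurd h1 (hab.2 hw)
          · exact h1
        have h2 : w ∈ f '' Q := by rw [him]; exact h1
        obtain ⟨q, hq, rfl⟩ := h2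
        exact ⟨q, (hQy q hq).le, by simp [hq]⟩

/-- the points that are finitely many successor steps above `x` -/
abbrev F (x y : L) : Prop := Relation.ReflTransGen (· ⋖ ·) x y

lemma F.le {x y : L} (h : F x y) : x ≤ y := by
  induction h with
  | refl => exact le_rfl
  | tail _ h2 ih => exact ih.trans h2.lt.le

lemma F.finite {x y : L} (h : F x y) : (Icc x y).Finite := by
  induction h with
  | refl => simp
  | @tail b c h1 h2 ih =>
    refine (ih.insert c).subset ?_
    intro z hz
    rcases eq_or_lt_of_le hz.2 with h3 | h3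
    · left; exact h3
    · right
      refine ⟨hz.1, ?_⟩
      by_contra h4
      exact h2.2 (not_le.1 h4) h3

lemma F.not_ss {x y : L} (h : F x y) (hx : ¬ SS x) : ¬ SS y := by
  induction h with
  | refl => exact hx
  | tail _ h2 ih => exact fun h3 => ih (ss_of_cover h2 h3)

lemma ss_of_covers {x : L} (h : ∀ y, F x y → ∃ z, y ⋖ z) : SS x := by
  classical
  choose! s hs using h
  have hF : ∀ y, F x y → F x (s y) := fun y hy => hy.tail (hs y hy)
  have hmono : ∀ y z, F x y → F x z → y ≤ z → s y ≤ s z := by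
    intro y z hy hz hyz
    rcases eq_or_lt_of_le hyz with rfl | hlt
    · exact le_rfl
    · by_contra hcon
      have h1 : z < s y := lt_of_lt_of_le (hs z hz).lt (not_le.1 hcon).le
      exact (hs y hy).2 hlt h1
  have hmono' : ∀ y z, F x y → F x z → s y < s z → y < z := by
    intro y z hy hz h1
    by_contra h2
    exact absurd (hmono z y hz hy (not_lt.1 h2)) (not_le_of_gt h1)
  let f : L → L := fun y => if hy : ∃ z, F x z ∧ s z = y then hy.choose else y
  have f1 : ∀ z, F x z → f (s z) = z := by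
    intro z hz
    have hex : ∃ w, F x w ∧ s w = s z := ⟨z, hz, rfl⟩
    have h1 : f (s z) = hex.choose := dif_pos hex
    rw [h1]
    obtain ⟨h2, h3⟩ := hex.choose_spec
    rcases lt_trichotomy hex.choose z with h4 | h4 | h4
    · exact absurd ((hs z hz).lt) (by
        rw [← h3]
        exact fun h5 => (hs _ h2).2 h4 h5)
    · exact h4
    · exact absurd ((hs _ h2).lt) (by
        rw [h3]
        exact fun h5 => (hs _ hz).2 h4 h5)
  have f2 : ∀ y, (¬ ∃ z, F x z ∧ s z = y) → f y = y := fun y hy => dif_neg hy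
  have hx0 : F x x := Relation.ReflTransGen.refl
  have fcases : ∀ y, (∃ z, F x z ∧ s z = y ∧ f y = z) ∨ ((¬ ∃ z, F x z ∧ s z = y) ∧ f y = y) := by
    intro y
    by_cases hy : ∃ z, F x z ∧ s z = y
    · obtain ⟨z, hz, rfl⟩ := hy
      exact Or.inl ⟨z, hz, rfl, f1 z hz⟩
    · exact Or.inr ⟨hy, f2 y hy⟩
  refine ⟨Ioi (s x), f, ?_, ?_, ⟨s x, (hs x hx0).lt, by simp⟩, ?_, ?_⟩
  · intro q hq
    exact (hs x hx0).lt.trans hq
  · intro q hq y hy
    exact lt_of_lt_of_le (mem_Ioi.1 hq) hy
  · intro y _ y' _ hle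
    rcases eq_or_lt_of_le hle with rfl | hlt
    · exact le_rfl
    rcases fcases y with ⟨z, hz, h1, h2⟩ | ⟨h1, h2⟩ <;>
    rcases fcases y' with ⟨z', hz', h1', h2'⟩ | ⟨h1', h2'⟩
    · rw [h2, h2']
      rw [← h1, ← h1'] at hlt
      exact (hmono' z z' hz hz' hlt).le
    · rw [h2, h2']
      have := (hs z hz).lt
      rw [h1] at this
      exact (this.trans hlt).le
    · rw [h2, h2']
      by_contra hcon
      rw [← h1'] at hlt
      exact (hs z' hz').2 (not_le.1 hcon) hlt
    · rw [h2, h2']
      exact hle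
  · ext w
    constructor
    · rintro ⟨y, hy, rfl⟩
      rcases fcases y with ⟨z, hz, h1, h2⟩ | ⟨h1, h2⟩
      · rw [h2]
        rw [← h1] at hy
        exact hmono' x z hx0 hz hy
      · rw [h2]
        exact (hs x hx0).lt.trans hy
    · intro hw
      by_cases hFw : F x w
      · refine ⟨s w, ?_, f1 w hFw⟩
        have h1 := hmono x w hx0 hFw (mem_Ioi.1 hw).le
        rcases eq_or_lt_of_le h1 with h2 | h2
        · exfalso
          have h3 := f1 x hx0
          rw [h2, f1 w hFw] at h3
          exact (mem_Ioi.1 hw).ne' h3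
        · exact h2
      · refine ⟨w, ?_, f2 w ?_⟩
        · have h1 : s x ≤ w := by
            by_contra h2
            exact (hs x hx0).2 hw (not_le.1 h2)
          rcases eq_or_lt_of_le h1 with h2 | h2
          · exact absurd (h2 ▸ hF x hx0) hFw
          · exact h2
        · rintro ⟨z, hz, rfl⟩
          exact hFw (hF z hz)

/-- if `¬ SS x`, then there is a point finitely many steps above `x` without an immediate
successor -/
lemma exists_top {x : L} (hx : ¬ SS x) : ∃ b, F x b ∧ ∀ z, ¬ b ⋖ z := by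
  by_contra hcon
  push Not at hcon
  exact hx (ss_of_covers hcon)

/-- the deletion of `x` maps onto `L` if `SS x` -/
lemma onto_of_ss {x : L} (h : SS x) :
    ∃ f : L → L, MonotoneOn f {x}ᶜ ∧ f '' {x}ᶜ = univ := by
  classical
  obtain ⟨Q, f, hQ, hup, ⟨y₀, hy₀, hy₀Q⟩, hf, him⟩ := h
  let k : L → L := fun y => if y ∈ Q then f y else if y < x then y else x
  have k1 : ∀ y ∈ Q, k y = f y := fun y hy => if_pos hy
  have k2 : ∀ y, y < x → k y = y := by
    intro y hy
    have : y ∉ Q := fun h => absurd (hQ y h) (not_lt_of_gt hy)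
    simp [k, this, hy]
  have k3 : ∀ y, x < y → y ∉ Q → k y = x := by
    intro y hy hyQ
    simp [k, hyQ, not_lt_of_gt hy]
  have hfx : ∀ y ∈ Q, x < f y := fun y hy => by
    have : f y ∈ Ioi x := by rw [← him]; exact ⟨y, hy, rfl⟩
    exact this
  refine ⟨k, ?_, ?_⟩
  · intro y hy y' hy' hle
    rcases lt_or_gt_of_ne hy with h1 | h1
    · rw [k2 y h1]
      rcases lt_or_gt_of_ne hy' with h2 | h2
      · rw [k2 y' h2]; exact hle
      · by_cases h3 : y' ∈ Q
        · rw [k1 y' h3]; exact (h1.trans (hfx y' h3)).le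
        · rw [k3 y' h2 h3]; exact h1.le
    · have h2 : x < y' := h1.trans_le hle
      by_cases h4 : y ∈ Q
      · have h5 := hup y h4 y' hle
        rw [k1 y h4, k1 y' h5]
        exact hf h4 h5 hle
      · rw [k3 y h1 h4]
        by_cases h3 : y' ∈ Q
        · rw [k1 y' h3]; exact (hfx y' h3).le
        · rw [k3 y' h2 h3]
  · rw [eq_univ_iff_forall]
    intro w
    rcases lt_trichotomy w x with h1 | h1 | h1
    · exact ⟨w, h1.ne, k2 w h1⟩
    · rw [h1]
      exact ⟨y₀, hy₀.ne', k3 y₀ hy₀ hy₀Q⟩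
    · have h2 : w ∈ f '' Q := by rw [him]; exact h1
      obtain ⟨q, hq, rfl⟩ := h2
      exact ⟨q, (hQ q hq).ne', k1 q hq⟩

/-- the dual of `SS` -/
abbrev SS' (x : L) : Prop := SS (OrderDual.toDual x)

lemma onto_of_ss' {x : L} (h : SS' x) :
    ∃ f : L → L, MonotoneOn f {x}ᶜ ∧ f '' {x}ᶜ = univ := by
  obtain ⟨f, hf, hf'⟩ := onto_of_ss (L := Lᵒᵈ) h
  exact ⟨f, fun a ha b hb hab => hf hb ha hab, hf'⟩

lemma exists_bot {x : L} (hx : ¬ SS' x) :
    ∃ a : L, a ≤ x ∧ (Icc a x).Finite ∧ ¬ SS' a ∧ ∀ z : L, ¬ z ⋖ a := by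
  obtain ⟨a', ha, hac⟩ := exists_top (L := Lᵒᵈ) hx
  refine ⟨OrderDual.ofDual a', ha.le, ?_, ha.not_ss hx, fun z hz => ?_⟩
  · have h4 : (Icc (OrderDual.toDual x) a').Finite := ha.finite
    have h5 : (Icc (OrderDual.ofDual a') x : Set L) =
        OrderDual.toDual ⁻¹' (Icc (OrderDual.toDual x) a') := by
      ext z
      exact ⟨fun h => ⟨h.2, h.1⟩, fun h => ⟨h.2, h.1⟩⟩
    rw [h5]
    exact h4.preimage (OrderDual.toDual.injective.injOn)
  · exact hac (OrderDual.toDual z) ⟨hz.1, fun c h1 h2 => hz.2 h2 h1⟩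

/-- if neither `SS x` nor its dual hold, then a strongly surjective order is finite -/
lemma finite_of_not_ss (hL : StronglySurjective L) {x : L} (h1 : ¬ SS x) (h2 : ¬ SS' x) :
    Finite L := by
  classical
  obtain ⟨b, hb, hbc⟩ := exists_top h1
  obtain ⟨a, hax, hfin2, has, hac'⟩ := exists_bot h2
  have hbs : ¬ SS b := hb.not_ss h1
  have hxb : x ≤ b := hb.le
  have hfin1 : (Icc x b).Finite := hb.finite
  have hfin : (Icc a b).Finite := by
    refine (hfin2.union hfin1).subset ?_
    intro z hz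
    rcases le_total z x with h3 | h3
    · left; exact ⟨hz.1, h3⟩
    · right; exact ⟨h3, hz.2⟩
  by_cases hK : (Iio a ∪ Ioi b : Set L).Nonempty
  swap
  · have h3 : (univ : Set L) ⊆ Icc a b := by
      intro z _
      refine ⟨?_, ?_⟩
      · by_contra h4
        exact hK ⟨z, Or.inl (not_le.1 h4)⟩
      · by_contra h4
        exact hK ⟨z, Or.inr (not_le.1 h4)⟩
    exact Set.finite_univ_iff.1 (hfin.subset h3)
  exfalso
  obtain ⟨f, hf, hfs⟩ := hL _ hK
  let h : L → L := fun y => (f y : L)
  have hmono : Monotone h := fun y y' hle => hf hle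
  have hval : ∀ y, h y < a ∨ b < h y := fun y => (f y).2
  have hsurjA : ∀ z, z < a → ∃ y, h y = z := fun z hz => by
    obtain ⟨y, hy⟩ := hfs ⟨z, Or.inl hz⟩
    exact ⟨y, congrArg Subtype.val hy⟩
  have hsurjB : ∀ z, b < z → ∃ y, h y = z := fun z hz => by
    obtain ⟨y, hy⟩ := hfs ⟨z, Or.inr hz⟩
    exact ⟨y, congrArg Subtype.val hy⟩
  have hab : a ≤ b := hax.trans hxb
  rcases hval a with hA | hB
  · -- the preimage of `Iio a` contains `a`; it has a maximum
    obtain ⟨m, hm, hmax⟩ : ∃ m, h m < a ∧ ∀ y, h y < a → y ≤ m := by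
      rcases hval b with hA' | hB'
      · -- `b` is mapped below `a`
        refine ⟨b, hA', ?_⟩
        by_contra hcon
        push Not at hcon
        obtain ⟨y₀, hy₀, hy₀b⟩ := hcon
        apply hbs
        refine ⟨{y | b < h y}, h, ?_, ?_, ⟨y₀, hy₀b, ?_⟩, hmono.monotoneOn _, ?_⟩
        · intro q hq
          by_contra h3
          have h4 := hmono (not_lt.1 h3)
          exact absurd (hq.trans_le h4) (not_lt_of_gt (hA'.trans_le hab))
        · intro q hq y hy
          exact lt_of_lt_of_le (show b < h q from hq) (hmono hy)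
        · intro h3
          exact absurd (show b < h y₀ from h3) (not_lt_of_gt (hy₀.trans_le hab))
        · ext w
          constructor
          · rintro ⟨y, hy, rfl⟩
            exact hy
          · intro hw
            obtain ⟨y, rfl⟩ := hsurjB w hw
            exact ⟨y, hw, rfl⟩
      · -- the maximum is in `[a, b]`
        have hfin3 : {y | y ∈ Icc a b ∧ h y < a}.Finite := hfin.subset fun y hy => hy.1
        obtain ⟨m, hm1, hm2⟩ := hfin3.exists_maximal ⟨a, ⟨le_rfl, hab⟩, hA⟩
        refine ⟨m, hm1.2, ?_⟩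
        intro y hy
        rcases lt_or_ge y a with h3 | h3
        · exact h3.le.trans hm1.1.1
        · have h4 : y ≤ b := by
            by_contra h5
            have h6 := hmono (not_le.1 h5).le
            exact absurd (hB'.trans_le h6) (not_lt_of_gt (hy.trans_le hab))
          by_contra h5
          exact h5 (hm2 ⟨⟨h3, h4⟩, hy⟩ (not_le.1 h5).le)
    apply hac' (h m)
    refine ⟨hm, fun c hc1 hc2 => ?_⟩
    obtain ⟨y, rfl⟩ := hsurjA c hc2
    exact absurd (hmono (hmax y hc2)) (not_le_of_gt hc1)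
  · -- the preimage of `Iio a` is contained in `Iio a`
    have hP : ∀ y, h y < a → y < a := by
      intro y hy
      by_contra h3
      have h4 := hmono (not_lt.1 h3)
      exact absurd (hB.trans_le h4) (not_lt_of_gt (hy.trans_le hab))
    have hP' : ∀ y, y < a → h y < a := by
      by_contra hcon
      push Not at hcon
      obtain ⟨y₀, hy₀, hy₀a⟩ := hcon
      apply has
      refine ⟨{y : Lᵒᵈ | h (OrderDual.ofDual y) < a}, h, ?_, ?_, ⟨y₀, hy₀, ?_⟩, ?_, ?_⟩
      · intro q hq
        exact hP q hq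
      · intro q hq y hy
        exact lt_of_le_of_lt (hmono (show OrderDual.ofDual y ≤ OrderDual.ofDual q from hy))
          (show h (OrderDual.ofDual q) < a from hq)
      · intro h3
        exact absurd (show h y₀ < a from h3) (not_lt_of_ge hy₀a)
      · intro y _ y' _ hle
        exact hmono (show OrderDual.ofDual y' ≤ OrderDual.ofDual y from hle)
      · ext w
        constructor
        · rintro ⟨y, hy, rfl⟩
          exact hy
        · intro hw
          obtain ⟨y, hy⟩ := hsurjA w hw
          refine ⟨y, ?_, hy⟩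
          change h y < a
          rw [hy]
          exact hw
    apply hbc (h a)
    refine ⟨hB, fun c hc1 hc2 => ?_⟩
    obtain ⟨y, rfl⟩ := hsurjB c hc1
    have h3 : ¬ a ≤ y := fun h4 => absurd (hmono h4) (not_le_of_gt hc2)
    have h4 := hP' y (not_le.1 h3)
    exact absurd (h4.trans_le hab) (not_lt_of_gt hc1)

/-- finite linear orders are strongly surjective -/
lemma finite_stronglySurjective (M : Type u) [LinearOrder M] [Finite M] :
    StronglySurjective M := by
  classical
  intro K hK
  have hKfin : K.Finite := K.toFinite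
  obtain ⟨m, hm⟩ := hKfin.exists_minimal hK
  have hmin : ∀ k ∈ K, m ≤ k := by
    intro k hk
    rcases le_total m k with h | h
    · exact h
    · exact hm.2 hk h
  -- the greatest element of K below y (or m)
  have hex : ∀ y : M, ∃ k : K, (m ≤ y → (k : M) ≤ y) ∧ (∀ k' ∈ K, k' ≤ y → k' ≤ k) ∧
      (y < m → (k : M) = m) := by
    intro y
    by_cases hy : m ≤ y
    · obtain ⟨k, hk⟩ := (hKfin.subset (fun z (hz : z ∈ K ∧ z ≤ y) => hz.1)).exists_maximal
        (⟨m, hm.1, hy⟩ : {z | z ∈ K ∧ z ≤ y}.Nonempty)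
      refine ⟨⟨k, hk.1.1⟩, fun _ => hk.1.2, fun k' hk' hk'y => ?_, fun h => absurd hy (not_le_of_gt h)⟩
      rcases le_total k' k with h | h
      · exact h
      · exact hk.2 ⟨hk', hk'y⟩ h
    · refine ⟨⟨m, hm.1⟩, fun h => absurd h hy, fun k' hk' hk'y => ?_, fun _ => rfl⟩
      exact absurd ((hmin k' hk').trans hk'y) hy
  choose f hf1 hf2 hf3 using hex
  refine ⟨f, ?_, ?_⟩
  · intro y y' hle
    change (f y : M) ≤ f y'
    by_cases hy : m ≤ y
    · exact hf2 y' _ (f y).2 ((hf1 y hy).trans hle)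
    · rw [hf3 y (not_le.1 hy)]
      exact hmin _ (f y').2
  · intro k
    refine ⟨k, ?_⟩
    apply Subtype.ext
    exact le_antisymm (hf1 k (hmin k k.2)) (hf2 k k k.2 le_rfl)

/-- Deleting one point of a strongly surjective linear order gives a strongly surjective linear
order. -/
theorem result (L : Type u) [LinearOrder L] (hL : StronglySurjective L) (x : L) :
    StronglySurjective {y : L // y ≠ x} := by
  classical
  by_cases h : SS x ∨ SS' x
  · obtain ⟨k, hk, hks⟩ : ∃ f : L → L, MonotoneOn f {x}ᶜ ∧ f '' {x}ᶜ = univ := by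
      rcases h with h | h
      · exact onto_of_ss h
      · exact onto_of_ss' h
    intro K hK
    obtain ⟨f, hf, hfs⟩ := hL (Subtype.val '' K) (hK.image _)
    -- transport back to K
    have hback : ∀ z : (Subtype.val '' K : Set L), ∃ w : K, ((w : {y : L // y ≠ x}) : L) = z := by
      rintro ⟨_, ⟨w, hw, rfl⟩⟩
      exact ⟨⟨w, hw⟩, rfl⟩
    choose g hg using hback
    refine ⟨fun y => g (f (k y)), ?_, ?_⟩
    · intro y y' hle
      have h1 : k y ≤ k y' := hk y.2 y'.2 hle
      have h2 : (f (k y) : L) ≤ f (k y') := hf h1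
      change ((g (f (k y)) : {y : L // y ≠ x}) : L) ≤ ((g (f (k y')) : {y : L // y ≠ x}) : L)
      rw [hg, hg]
      exact h2
    · intro w
      obtain ⟨z, hz⟩ := hfs ⟨((w : {y : L // y ≠ x}) : L), ⟨w, w.2, rfl⟩⟩
      have h1 : z ∈ k '' {x}ᶜ := by rw [hks]; trivial
      obtain ⟨y, hy, rfl⟩ := h1
      refine ⟨⟨y, hy⟩, ?_⟩
      apply Subtype.ext
      apply Subtype.ext
      change ((g (f (k y)) : {y : L // y ≠ x}) : L) = _
      rw [hg, hz]
  · push Not at h
    have : Finite L := finite_of_not_ss hL h.1 h.2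
    exact finite_stronglySurjective _

end Pool.Agent.Results.MP_6d87e8_lc.DeletePoint
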